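import Pool.Agent.H89.PNT.Short

namespace H89.PNT

open Real Filter Topology Set ArithmeticFunction.vonMangoldt

variable {q : ℕ} [NeZero q] (a : ZMod q)

/-- the estimate before the limit -/
lemma window_ineq (ha : IsUnit a) {ε : ℝ} (hε : 0 < ε) {M : ℝ}
    (hM : ∀ δ ∈ Set.Ioc (0:ℝ) 1, ∀ y : ℝ, ∑' n, A a δ 1 y n ≤ M) {l : ℝ} (hl : 1 ≤ l)
    {x : ℝ} (hx : 0 < x) {δ : ℝ} (hδ : δ ∈ Set.Ioc (0:ℝ) 1) (F : Finset ℕ) :
    dens q * ∑ n ∈ F, B δ l (Real.log x + Real.log (1 + ε) / 2) n
        + (J (G a) l δ (Real.log x + Real.log (1 + ε) / 2)).re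
      ≤ ∑ n ∈ Finset.Ioc ⌊x⌋₊ ⌊(1 + ε) * x⌋₊, A a δ l (Real.log x + Real.log (1 + ε) / 2) n
        + (1 + π / (Real.log (1 + ε) / 2)) ^ 2 / l ^ 2 * (2 * M) := by
  set η := Real.log (1 + ε) / 2 with hη
  have hη0 : 0 < η := by
    have : 0 < Real.log (1 + ε) := Real.log_pos (by linarith)
    positivity
  set y := Real.log x + η with hy
  set D := (1 + π / η) ^ 2 / l ^ 2 with hD
  have hl0 : 0 < l := by linarith
  have hD0 : 0 ≤ D := by positivity
  set W := Finset.Ioc ⌊x⌋₊ ⌊(1 + ε) * x⌋₊ with hW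
  have hd := dens_pos (q := q)
  have h1 : ∑ n ∈ F, B δ l y n ≤ ∑' n, B δ l y n :=
    (summable_B hδ.1 l y).sum_le_tsum F (fun n _ => B_nonneg δ l y n)
  have h2 := identR a ha hδ.1 l y
  have hpt : ∀ n : ℕ, A a δ l y n ≤ (if n ∈ W then A a δ l y n else 0)
      + D * (A a δ 1 y n + A a δ 1 (y - π) n) := by
    intro n
    have hs : 0 ≤ D * (A a δ 1 y n + A a δ 1 (y - π) n) :=
      mul_nonneg hD0 (add_nonneg (A_nonneg a _ _ _ _) (A_nonneg a _ _ _ _))
    by_cases hn : n ∈ W
    · rw [if_pos hn]; linarith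
    · rw [if_neg hn, zero_add]
      by_cases hn0 : n = 0
      · subst hn0
        have : A a δ l y 0 = 0 := by
          unfold A
          rw [residueClass_apply_zero]
          simp
        rw [this]; exact hs
      · have hnp : (0:ℝ) < n := by exact_mod_cast Nat.pos_of_ne_zero hn0
        have ht : η ≤ |y - Real.log n| := by
          rw [hW, Finset.mem_Ioc, not_and_or, not_lt, not_le] at hn
          rcases hn with hn | hn
          · have h3 : (n:ℝ) ≤ x := (Nat.le_floor_iff hx.le).1 hn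
            have h4 : Real.log n ≤ Real.log x := Real.log_le_log hnp h3
            calc η ≤ y - Real.log n := by rw [hy]; linarith
              _ ≤ _ := le_abs_self _
          · have h3 : (1 + ε) * x < n := by
              exact (Nat.floor_lt (by positivity)).1 hn
            have h4 : Real.log ((1 + ε) * x) ≤ Real.log n := Real.log_le_log (by positivity) h3.le
            rw [Real.log_mul (by positivity) (by positivity)] at h4
            calc η ≤ -(y - Real.log n) := by rw [hy]; linarith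
              _ ≤ _ := neg_le_abs _
        have h5 := K_tail (η := η) (l := l) hη0 hl0 ht
        have h6 : 0 ≤ residueClass a n / (n:ℝ) ^ (1 + δ) :=
          div_nonneg (residueClass_nonneg a n) (by positivity)
        calc A a δ l y n = residueClass a n / (n:ℝ) ^ (1 + δ) * K (l * (y - Real.log n)) := rfl
          _ ≤ residueClass a n / (n:ℝ) ^ (1 + δ) *
              (D * (K (y - Real.log n) + K (y - Real.log n - π))) :=
            mul_le_mul_of_nonneg_left h5 h6
          _ = _ := by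
            unfold A
            rw [one_mul, one_mul, show y - π - Real.log n = y - Real.log n - π by ring]
            ring
  have hsA := summable_A a hδ.1 l y
  have hs1 := summable_A a hδ.1 1 y
  have hs2 := summable_A a hδ.1 1 (y - π)
  have hfin : Summable fun n : ℕ => (if n ∈ W then A a δ l y n else 0) :=
    summable_of_ne_finset_zero (s := W) (fun n hn => by simp [hn])
  have h3 : ∑' n, A a δ l y n ≤ ∑' n, ((if n ∈ W then A a δ l y n else 0)
      + D * (A a δ 1 y n + A a δ 1 (y - π) n)) :=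
    hsA.tsum_le_tsum hpt (hfin.add ((hs1.add hs2).mul_left D))
  have h4 : ∑' n, (if n ∈ W then A a δ l y n else 0) = ∑ n ∈ W, A a δ l y n := by
    rw [tsum_eq_sum (s := W) (f := fun n => if n ∈ W then A a δ l y n else 0)
      (fun n hn => if_neg hn)]
    exact Finset.sum_congr rfl fun n hn => if_pos hn
  rw [hfin.tsum_add ((hs1.add hs2).mul_left D), tsum_mul_left, hs1.tsum_add hs2, h4] at h3
  have h5 := hM δ hδ y
  have h6 := hM δ hδ (y - π)
  have h7 : D * (∑' n, A a δ 1 y n + ∑' n, A a δ 1 (y - π) n) ≤ D * (2 * M) :=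
    mul_le_mul_of_nonneg_left (by linarith) hD0
  have h8 := mul_le_mul_of_nonneg_left h1 hd.le
  linarith

omit [NeZero q] in
lemma tendsto_A (l y : ℝ) {n : ℕ} (hn : n ≠ 0) :
    Tendsto (fun δ : ℝ => A a δ l y n) (𝓝[>] 0) (𝓝 (A a 0 l y n)) := by
  have hn0 : (n:ℝ) ≠ 0 := by exact_mod_cast hn
  have hnp : (0:ℝ) < n := by exact_mod_cast Nat.pos_of_ne_zero hn
  have hc : Continuous fun δ : ℝ => A a δ l y n := by
    unfold A
    refine Continuous.mul (continuous_const.div ?_ ?_) continuous_const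
    · exact (Real.continuous_const_rpow hn0).comp (by fun_prop)
    · intro δ; positivity
  exact (hc.tendsto 0).mono_left nhdsWithin_le_nhds

omit [NeZero q] in
lemma tendsto_B (l y : ℝ) {n : ℕ} (hn : n ≠ 0) :
    Tendsto (fun δ : ℝ => B δ l y n) (𝓝[>] 0) (𝓝 (B 0 l y n)) := by
  have hn0 : (n:ℝ) ≠ 0 := by exact_mod_cast hn
  have hnp : (0:ℝ) < n := by exact_mod_cast Nat.pos_of_ne_zero hn
  have hc : Continuous fun δ : ℝ => B δ l y n := by
    unfold B
    refine Continuous.mul (continuous_const.div ?_ ?_) continuous_const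
    · exact (Real.continuous_const_rpow hn0).comp (by fun_prop)
    · intro δ; positivity
  exact (hc.tendsto 0).mono_left nhdsWithin_le_nhds

lemma window_ineq0 (ha : IsUnit a) {ε : ℝ} (hε : 0 < ε) {M : ℝ}
    (hM : ∀ δ ∈ Set.Ioc (0:ℝ) 1, ∀ y : ℝ, ∑' n, A a δ 1 y n ≤ M) {l : ℝ} (hl : 1 ≤ l)
    {x : ℝ} (hx : 0 < x) (F : Finset ℕ) (hF : ∀ n ∈ F, n ≠ 0) :
    dens q * ∑ n ∈ F, B 0 l (Real.log x + Real.log (1 + ε) / 2) n
        + (J (G a) l 0 (Real.log x + Real.log (1 + ε) / 2)).re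
      ≤ ∑ n ∈ Finset.Ioc ⌊x⌋₊ ⌊(1 + ε) * x⌋₊, A a 0 l (Real.log x + Real.log (1 + ε) / 2) n
        + (1 + π / (Real.log (1 + ε) / 2)) ^ 2 / l ^ 2 * (2 * M) := by
  set y := Real.log x + Real.log (1 + ε) / 2 with hy
  have hev : ∀ᶠ δ in 𝓝[>] (0:ℝ), δ ∈ Set.Ioc (0:ℝ) 1 := Ioc_mem_nhdsGT (by norm_num)
  refine le_of_tendsto_of_tendsto (b := 𝓝[>] (0:ℝ))
    (f := fun δ => dens q * ∑ n ∈ F, B δ l y n + (J (G a) l δ y).re)
    (g := fun δ => ∑ n ∈ Finset.Ioc ⌊x⌋₊ ⌊(1 + ε) * x⌋₊, A a δ l y n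
        + (1 + π / (Real.log (1 + ε) / 2)) ^ 2 / l ^ 2 * (2 * M)) ?_ ?_ ?_
  · refine ((tendsto_finsetSum F fun n hn => tendsto_B l y (hF n hn)).const_mul _).add ?_
    exact (Complex.continuous_re.tendsto _).comp (J_tendsto (G_cont a) l y)
  · refine (tendsto_finsetSum _ fun n hn => tendsto_A a l y ?_).add_const _
    rw [Finset.mem_Ioc] at hn
    omega
  · filter_upwards [hev] with δ hδ
    exact window_ineq a ha hε hM hl hx hδ F

/-- primes in a residue class in short intervals -/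
theorem exists_prime_between_zmod (ha : IsUnit a) {ε : ℝ} (hε : 0 < ε) :
    ∃ x0 : ℝ, ∀ x : ℝ, x0 ≤ x → ∃ p : ℕ, p.Prime ∧ (p : ZMod q) = a ∧ x < p ∧
      (p : ℝ) ≤ (1 + ε) * x := by
  obtain ⟨M, hM0, hM⟩ := A_upper a ha
  have hd := dens_pos (q := q)
  have hpi := Real.pi_pos
  have hlog : 0 < Real.log (1 + ε) := Real.log_pos (by linarith)
  set η := Real.log (1 + ε) / 2 with hη
  have hη0 : 0 < η := by positivity
  have he := Real.exp_pos 1
  set κ := dens q / (32 * Real.exp 1) with hκ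
  have hκ0 : 0 < κ := by positivity
  set D := (1 + π / η) ^ 2 with hD
  have hD0 : 0 < D := by positivity
  set l := max 1 (2 * M * D / κ) with hl
  have hl1 : 1 ≤ l := le_max_left _ _
  have hl0 : 0 < l := by linarith
  have hl2 : 2 * M * D ≤ κ * l := by
    have : 2 * M * D / κ ≤ l := le_max_right _ _
    rw [div_le_iff₀ hκ0] at this
    linarith
  have hκl : 0 < κ / l := by positivity
  have htail : D / l ^ 2 * (2 * M) ≤ κ / l := by
    rw [div_mul_eq_mul_div, div_le_div_iff₀ (by positivity) hl0]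
    calc D * (2 * M) * l = (2 * M * D) * l := by ring
      _ ≤ (κ * l) * l := mul_le_mul_of_nonneg_right hl2 hl0.le
      _ = κ * l ^ 2 := by ring
  -- the boundary integral
  have hJ := J_zero (G := G a) hl0
  have hJ2 : ∀ᶠ y in atTop, ‖J (G a) l 0 y‖ < κ / l := by
    have h0 := hJ.norm
    rw [norm_zero] at h0
    exact h0.eventually (gt_mem_nhds hκl)
  have hy : Tendsto (fun x : ℝ => Real.log x + η) atTop atTop :=
    tendsto_atTop_add_const_right _ _ Real.tendsto_log_atTop
  have hx1 := hy.eventually hJ2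
  have hx2 := hy.eventually (eventually_ge_atTop (Real.log (4 * l)))
  -- proper prime powers
  obtain ⟨s, hs⟩ := (summable_residueClass_non_primes_div (a := a)).vanishing
    (gt_mem_nhds hκl)
  have hx3 := eventually_ge_atTop (((s.sup id : ℕ) : ℝ))
  have hx4 := eventually_gt_atTop (0:ℝ)
  obtain ⟨x0, hx0⟩ := Filter.eventually_atTop.1 (hx1.and (hx2.and (hx3.and hx4)))
  refine ⟨x0, fun x hx => ?_⟩
  obtain ⟨g1, g2, g3, g4⟩ := hx0 x hx
  set y := Real.log x + η with hydef
  set F := Finset.Ioc ⌊Real.exp y⌋₊ ⌊Real.exp (y + 1 / l)⌋₊ with hF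
  have hmain := window_ineq0 a ha hε hM hl1 g4 F (fun n hn => by
    rw [hF, Finset.mem_Ioc] at hn; omega)
  have hB : 1 / (8 * Real.exp 1 * l) ≤ ∑ n ∈ F, B 0 l y n := by
    refine (sone_lower hl1 g2).trans_eq (Finset.sum_congr rfl fun n _ => ?_)
    unfold B
    rw [add_zero, Real.rpow_one]
    ring
  have hB2 : 4 * (κ / l) ≤ dens q * ∑ n ∈ F, B 0 l y n := by
    calc 4 * (κ / l) = dens q * (1 / (8 * Real.exp 1 * l)) := by
          rw [hκ]; field_simp; ring
      _ ≤ _ := mul_le_mul_of_nonneg_left hB hd.le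
  have hJre : -(κ / l) ≤ (J (G a) l 0 y).re := by
    have h1 := Complex.abs_re_le_norm (J (G a) l 0 y)
    have h2 := neg_abs_le (J (G a) l 0 y).re
    linarith [g1]
  by_contra hno
  push Not at hno
  have hW : ∑ n ∈ Finset.Ioc ⌊x⌋₊ ⌊(1 + ε) * x⌋₊, A a 0 l y n < κ / l := by
    have hdis : Disjoint (Finset.Ioc ⌊x⌋₊ ⌊(1 + ε) * x⌋₊) s := by
      rw [Finset.disjoint_left]
      intro n hn hns
      rw [Finset.mem_Ioc] at hn
      have h1 : n ≤ s.sup id := Finset.le_sup (f := id) hns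
      have h2 : s.sup id ≤ ⌊x⌋₊ := Nat.le_floor g3
      omega
    refine lt_of_le_of_lt (Finset.sum_le_sum fun n hn => ?_) (hs _ hdis)
    rw [Finset.mem_Ioc] at hn
    have hn1 : x < n := (Nat.floor_lt g4.le).1 hn.1
    have hn2 : (n:ℝ) ≤ (1 + ε) * x := (Nat.le_floor_iff (by positivity)).1 hn.2
    have hn0 : (0:ℝ) < n := g4.trans hn1
    unfold A
    rw [add_zero, Real.rpow_one]
    by_cases hp : n.Prime
    · have hne : (n : ZMod q) ≠ a := by
        intro hna
        have := hno n hp hna hn1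
        linarith
      have hz : residueClass a n = 0 := by
        rw [residueClass, Set.indicator_of_notMem]
        simpa using hne
      rw [hz]
      simp
    · rw [if_neg hp]
      exact mul_le_of_le_one_right (div_nonneg (residueClass_nonneg a n) hn0.le) (K_le_one _)
  rw [← hD] at hmain
  linarith

/-- Primes in short intervals: a consequence of the prime number theorem. -/
theorem exists_prime_between {ε : ℝ} (hε : 0 < ε) :
    ∃ x0 : ℝ, ∀ x : ℝ, x0 ≤ x → ∃ p : ℕ, p.Prime ∧ x < p ∧ (p : ℝ) ≤ (1 + ε) * x := by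
  obtain ⟨x0, h⟩ := exists_prime_between_zmod (q := 1) (1 : ZMod 1) isUnit_one hε
  exact ⟨x0, fun x hx => by
    obtain ⟨p, h1, _, h3, h4⟩ := h x hx
    exact ⟨p, h1, h3, h4⟩⟩

end H89.PNT
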