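import Pool.Agent.H89.PNT.Kernel
import Mathlib.NumberTheory.LSeries.Basic
import Mathlib.Analysis.Fourier.RiemannLebesgueLemma
import Mathlib.MeasureTheory.Integral.DominatedConvergence

namespace H89.PNT

open Real intervalIntegral MeasureTheory Filter Topology Set

/-- the smoothed boundary integral -/
noncomputable def J (G : ℂ → ℂ) (l δ y : ℝ) : ℂ :=
  ∫ v in (-1:ℝ)..1, (((1 - |v|) : ℝ) : ℂ) * Complex.exp (v * ((l * y : ℝ) : ℂ) * Complex.I) *
    G (1 + δ + v * l * Complex.I)

theorem ident {a : ℕ → ℂ} {δ : ℝ} (h : LSeriesSummable a (1 + δ)) (l y : ℝ) :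
    HasSum (fun n : ℕ => LSeries.term a (1 + δ) n * (K (l * (y - Real.log n)) : ℂ))
      (J (LSeries a) l δ y) := by
  have hre : ∀ v : ℝ, (1 + (δ:ℂ) + v * l * Complex.I).re = ((1:ℂ) + δ).re := by
    intro v; simp
  have hsum : ∀ v : ℝ, LSeriesSummable a (1 + δ + v * l * Complex.I) := by
    intro v
    rw [LSeriesSummable_iff_of_re_eq_re (hre v)]
    exact h
  have hterm : ∀ (n : ℕ) (v : ℝ), LSeries.term a (1 + δ + v * l * Complex.I) n
      = LSeries.term a (1 + δ) n * Complex.exp (-(v * l * Real.log n * Complex.I)) := by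
    intro n v
    by_cases hn : n = 0
    · subst hn; simp [LSeries.term]
    · have hn' : (n : ℂ) ≠ 0 := by exact_mod_cast hn
      rw [LSeries.term_of_ne_zero hn, LSeries.term_of_ne_zero hn, Complex.cpow_add _ _ hn',
        div_mul_eq_div_div, div_eq_mul_inv (a n / (n:ℂ) ^ (1 + (δ:ℂ)))]
      congr 1
      rw [Complex.cpow_def_of_ne_zero hn', ← Complex.exp_neg]
      congr 1
      rw [← Complex.natCast_log]
      ring
  unfold J
  have key : ∀ n : ℕ, ∫ v in (-1:ℝ)..1, (((1 - |v|) : ℝ) : ℂ) *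
      Complex.exp (v * ((l * y : ℝ) : ℂ) * Complex.I) *
      LSeries.term a (1 + δ + v * l * Complex.I) n
      = LSeries.term a (1 + δ) n * (K (l * (y - Real.log n)) : ℂ) := by
    intro n
    rw [← K_integral, ← intervalIntegral.integral_const_mul]
    apply intervalIntegral.integral_congr
    intro v _
    simp only
    rw [hterm n v]
    have : Complex.exp (v * ((l * y : ℝ) : ℂ) * Complex.I) *
        Complex.exp (-(v * l * Real.log n * Complex.I))
        = Complex.exp (v * ((l * (y - Real.log n) : ℝ) : ℂ) * Complex.I) := by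
      rw [← Complex.exp_add]
      congr 1
      push_cast
      ring
    rw [← this]
    ring
  have hmain := intervalIntegral.hasSum_integral_of_dominated_convergence
    (μ := volume) (a := (-1:ℝ)) (b := 1)
    (F := fun (n : ℕ) (v : ℝ) => (((1 - |v|) : ℝ) : ℂ) *
      Complex.exp (v * ((l * y : ℝ) : ℂ) * Complex.I) *
      LSeries.term a (1 + δ + v * l * Complex.I) n)
    (f := fun v : ℝ => (((1 - |v|) : ℝ) : ℂ) *
      Complex.exp (v * ((l * y : ℝ) : ℂ) * Complex.I) * LSeries a (1 + δ + v * l * Complex.I))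
    (fun n _ => ‖LSeries.term a (1 + δ) n‖) ?_ ?_ ?_ ?_ ?_
  · simpa only [key] using hmain
  · intro n
    apply Continuous.aestronglyMeasurable
    have : (fun v : ℝ => LSeries.term a (1 + δ + v * l * Complex.I) n)
        = fun v : ℝ => LSeries.term a (1 + δ) n * Complex.exp (-(v * l * Real.log n * Complex.I)) := by
      ext v; exact hterm n v
    refine Continuous.mul (by fun_prop) ?_
    rw [this]
    fun_prop
  · intro n
    refine ae_of_all _ fun v hv => ?_
    rw [hterm n v, norm_mul, norm_mul, norm_mul]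
    have e1 : ‖Complex.exp (v * ((l * y : ℝ) : ℂ) * Complex.I)‖ = 1 := by
      have := Complex.norm_exp_ofReal_mul_I (v * (l * y))
      push_cast at this ⊢
      exact this
    have e2 : ‖Complex.exp (-(v * l * Real.log n * Complex.I))‖ = 1 := by
      have := Complex.norm_exp_ofReal_mul_I (-(v * l * Real.log n))
      rw [← this]
      congr 2
      push_cast
      ring
    rw [e1, e2, mul_one, mul_one]
    have e3 : ‖(((1 - |v|) : ℝ) : ℂ)‖ ≤ 1 := by
      rw [Complex.norm_real, Real.norm_eq_abs, abs_le]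
      rw [Set.uIoc_of_le (by norm_num)] at hv
      have : |v| ≤ 1 := abs_le.2 ⟨by linarith [hv.1], hv.2⟩
      constructor <;> linarith [abs_nonneg v]
    calc _ ≤ 1 * ‖LSeries.term a (1 + δ) n‖ := by gcongr
      _ = _ := one_mul _
  · exact ae_of_all _ fun v _ => h.norm
  · exact intervalIntegrable_const
  · refine ae_of_all _ fun v _ => ?_
    exact (hsum v).hasSum.mul_left _

section

variable {G : ℂ → ℂ} (hG : ContinuousOn G {s | 1 ≤ s.re})

include hG

lemma cont_path {δ : ℝ} (hδ : 0 ≤ δ) (l : ℝ) :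
    Continuous fun v : ℝ => G (1 + δ + v * l * Complex.I) := by
  apply hG.comp_continuous (by fun_prop)
  intro v
  simp [hδ]

/-- boundedness -/
lemma bound_path (l : ℝ) : ∃ B : ℝ, 0 ≤ B ∧ ∀ δ ∈ Set.Icc (0:ℝ) 1, ∀ v ∈ Set.Icc (-1:ℝ) 1,
    ‖G (1 + δ + v * l * Complex.I)‖ ≤ B := by
  have hK : IsCompact ((fun z : ℝ × ℝ => (1 + z.1 + z.2 * l * Complex.I : ℂ)) ''
      (Set.Icc (0:ℝ) 1 ×ˢ Set.Icc (-1:ℝ) 1)) :=
    (isCompact_Icc.prod isCompact_Icc).image (by fun_prop)
  have hsub : ((fun z : ℝ × ℝ => (1 + z.1 + z.2 * l * Complex.I : ℂ)) ''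
      (Set.Icc (0:ℝ) 1 ×ˢ Set.Icc (-1:ℝ) 1)) ⊆ {s | 1 ≤ s.re} := by
    rintro _ ⟨z, hz, rfl⟩
    have := hz.1.1
    simp [this]
  obtain ⟨B, hB⟩ := hK.exists_bound_of_continuousOn (hG.mono hsub)
  refine ⟨max B 0, le_max_right _ _, ?_⟩
  intro δ hδ v hv
  exact (hB _ ⟨(δ, v), ⟨hδ, hv⟩, rfl⟩).trans (le_max_left _ _)

omit hG in
lemma norm_weight {v : ℝ} (hv : v ∈ Set.uIoc (-1:ℝ) 1) (x : ℝ) :
    ‖(((1 - |v|) : ℝ) : ℂ) * Complex.exp (v * (x : ℂ) * Complex.I)‖ ≤ 1 := by
  have e1 : ‖Complex.exp (v * (x : ℂ) * Complex.I)‖ = 1 := by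
    have := Complex.norm_exp_ofReal_mul_I (v * x)
    push_cast at this ⊢
    exact this
  rw [norm_mul, e1, mul_one, Complex.norm_real, Real.norm_eq_abs, abs_le]
  rw [Set.uIoc_of_le (by norm_num)] at hv
  have : |v| ≤ 1 := abs_le.2 ⟨by linarith [hv.1], hv.2⟩
  constructor <;> linarith [abs_nonneg v]

theorem J_bound (l : ℝ) : ∃ B : ℝ, 0 ≤ B ∧ ∀ δ ∈ Set.Icc (0:ℝ) 1, ∀ y : ℝ, ‖J G l δ y‖ ≤ B := by
  obtain ⟨B, hB0, hB⟩ := bound_path hG l
  refine ⟨B * 2, by positivity, ?_⟩
  intro δ hδ y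
  unfold J
  have := intervalIntegral.norm_integral_le_of_norm_le_const (a := (-1:ℝ)) (b := 1) (C := B)
    (f := fun v : ℝ => (((1 - |v|) : ℝ) : ℂ) * Complex.exp (v * ((l * y : ℝ) : ℂ) * Complex.I) *
      G (1 + δ + v * l * Complex.I)) ?_
  · have h2 : |(1:ℝ) - -1| = 2 := by norm_num
    rw [h2] at this
    exact this
  · intro v hv
    rw [norm_mul]
    have h1 := norm_weight hv (l * y)
    have h2 := hB δ hδ v (by
      rw [Set.uIoc_of_le (by norm_num)] at hv
      exact ⟨hv.1.le, hv.2⟩)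
    calc _ ≤ 1 * B := by gcongr
      _ = B := one_mul B

theorem J_tendsto (l y : ℝ) : Tendsto (fun δ : ℝ => J G l δ y) (𝓝[>] 0) (𝓝 (J G l 0 y)) := by
  obtain ⟨B, hB0, hB⟩ := bound_path hG l
  have hev : ∀ᶠ δ in 𝓝[>] (0:ℝ), δ ∈ Set.Icc (0:ℝ) 1 := by
    filter_upwards [Ioc_mem_nhdsGT (show (0:ℝ) < 1 by norm_num)] with δ hδ
    exact ⟨hδ.1.le, hδ.2⟩
  unfold J
  apply intervalIntegral.tendsto_integral_filter_of_dominated_convergence (fun _ => B)
  · filter_upwards [hev] with δ hδ
    apply Continuous.aestronglyMeasurable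
    exact Continuous.mul (by fun_prop) (cont_path hG hδ.1 l)
  · filter_upwards [hev] with δ hδ
    refine ae_of_all _ fun v hv => ?_
    rw [norm_mul]
    have h1 := norm_weight hv (l * y)
    have h2 := hB δ hδ v (by
      rw [Set.uIoc_of_le (by norm_num)] at hv
      exact ⟨hv.1.le, hv.2⟩)
    calc _ ≤ 1 * B := by gcongr
      _ = B := one_mul B
  · exact intervalIntegrable_const
  · refine ae_of_all _ fun v _ => ?_
    apply Tendsto.const_mul
    have hc : ContinuousWithinAt (fun δ : ℝ => G (1 + δ + v * l * Complex.I)) (Set.Ici 0) 0 := by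
      have h0 : ContinuousWithinAt G {s | 1 ≤ s.re} (1 + ((0:ℝ):ℂ) + v * l * Complex.I) :=
        hG _ (by simp)
      refine ContinuousWithinAt.comp (f := fun δ : ℝ => (1 + (δ:ℂ) + v * l * Complex.I))
        (s := Set.Ici 0) (t := {s | 1 ≤ s.re}) (g := G) h0 ?_ ?_
      · apply Continuous.continuousWithinAt
        fun_prop
      · intro δ hδ
        have : (0:ℝ) ≤ δ := hδ
        simp [this]
    exact (hc.mono Set.Ioi_subset_Ici_self).tendsto

omit hG in
theorem J_zero {l : ℝ} (hl : 0 < l) : Tendsto (fun y : ℝ => J G l 0 y) atTop (𝓝 0) := by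
  set f : ℝ → ℂ := Set.indicator (Set.Ioc (-1:ℝ) 1)
    (fun v : ℝ => (((1 - |v|) : ℝ) : ℂ) * G (1 + ((0:ℝ):ℂ) + v * l * Complex.I)) with hf
  have hRL := Real.tendsto_integral_exp_smul_cocompact f
  have hw : Tendsto (fun y : ℝ => -(l * y / (2 * π))) atTop (cocompact ℝ) := by
    have h1 : Tendsto (fun y : ℝ => -(l * y / (2 * π))) atTop atBot := by
      have : Tendsto (fun y : ℝ => l / (2 * π) * y) atTop atTop :=
        tendsto_id.const_mul_atTop (by positivity)
      have h2 := tendsto_neg_atTop_atBot.comp this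
      refine h2.congr fun y => ?_
      simp only [Function.comp]
      ring
    exact h1.mono_right atBot_le_cocompact
  have h3 := hRL.comp hw
  refine h3.congr fun y => ?_
  simp only [Function.comp]
  unfold J
  rw [intervalIntegral.integral_of_le (by norm_num), hf, ← MeasureTheory.integral_indicator measurableSet_Ioc]
  apply MeasureTheory.integral_congr_ae
  refine ae_of_all _ fun v => ?_
  simp only
  by_cases hv : v ∈ Set.Ioc (-1:ℝ) 1
  · rw [Set.indicator_of_mem hv, Set.indicator_of_mem hv, Circle.smul_def, Real.fourierChar_apply,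
      smul_eq_mul]
    have : Complex.exp (2 * π * ((-(v * -(l * y / (2 * π))) : ℝ) : ℂ) * Complex.I)
        = Complex.exp (v * ((l * y : ℝ) : ℂ) * Complex.I) := by
      congr 1
      push_cast
      have hpi : (π : ℂ) ≠ 0 := by exact_mod_cast Real.pi_ne_zero
      field_simp
    push_cast at this ⊢
    rw [this]
    ring
  · rw [Set.indicator_of_notMem hv, Set.indicator_of_notMem hv, smul_zero]

end

end H89.PNT
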