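import Mathlib.Analysis.SpecialFunctions.Integrals.Basic
import Mathlib.Analysis.SpecialFunctions.Trigonometric.Bounds

/-! The Fejer kernel in the form `K t = ∫_{-1}^{1} (1-|u|) e^{iut} du = (2 - 2 cos t)/t^2`. -/

namespace H89.PNT

open Real intervalIntegral MeasureTheory

/-- the kernel -/
noncomputable def K (t : ℝ) : ℝ := 2 * ∫ u in (0:ℝ)..1, (1 - u) * Real.cos (u * t)

lemma cont_aux (t : ℝ) : Continuous fun u : ℝ => (1 - u) * Real.cos (u * t) := by fun_prop

lemma K_eq {t : ℝ} (ht : t ≠ 0) : t ^ 2 * K t = 2 - 2 * Real.cos t := by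
  have h1 : ∀ u ∈ Set.uIcc (0:ℝ) 1, HasDerivAt
      (fun u : ℝ => (1 - u) * Real.sin (u * t) / t - Real.cos (u * t) / t ^ 2)
      ((1 - u) * Real.cos (u * t)) u := by
    intro u _
    have e1 : HasDerivAt (fun u : ℝ => u * t) t u := by simpa using (hasDerivAt_id u).mul_const t
    have e2 : HasDerivAt (fun u : ℝ => Real.sin (u * t)) (Real.cos (u * t) * t) u := e1.sin
    have e3 : HasDerivAt (fun u : ℝ => Real.cos (u * t)) (-Real.sin (u * t) * t) u := e1.cos
    have e4 : HasDerivAt (fun u : ℝ => (1 - u)) (-1) u := by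
      simpa using (hasDerivAt_id u).const_sub (1:ℝ)
    have e5 := ((e4.mul e2).div_const t).sub (e3.div_const (t ^ 2))
    refine e5.congr_deriv ?_
    field_simp
    ring
  have h2 := intervalIntegral.integral_eq_sub_of_hasDerivAt h1
    ((cont_aux t).intervalIntegrable _ _)
  unfold K
  rw [h2]
  simp
  field_simp
  ring

lemma K_zero : K 0 = 1 := by
  unfold K
  have h : ∫ u in (0:ℝ)..1, (1 - u) * Real.cos (u * 0) = 1 / 2 := by
    simp only [mul_zero, Real.cos_zero, mul_one]
    rw [intervalIntegral.integral_sub (by simp) (by simp)]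
    simp
    norm_num
  rw [h]; norm_num

lemma K_nonneg (t : ℝ) : 0 ≤ K t := by
  by_cases ht : t = 0
  · rw [ht, K_zero]; norm_num
  · have h1 := K_eq ht
    have h2 : 0 < t ^ 2 := by positivity
    have h3 := Real.cos_le_one t
    by_contra h
    push Not at h
    nlinarith

lemma K_le_one (t : ℝ) : K t ≤ 1 := by
  have h : ∫ u in (0:ℝ)..1, (1 - u) * Real.cos (u * t) ≤ ∫ u in (0:ℝ)..1, (1 - u) := by
    apply intervalIntegral.integral_mono_on (by norm_num) ((cont_aux t).intervalIntegrable _ _)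
      ((by fun_prop : Continuous fun u : ℝ => 1 - u).intervalIntegrable _ _)
    intro u hu
    have h1 : 0 ≤ 1 - u := by linarith [hu.2]
    have h2 := Real.cos_le_one (u * t)
    nlinarith
  have h3 : ∫ u in (0:ℝ)..1, (1 - u) = 1 / 2 := by
    rw [intervalIntegral.integral_sub (by simp) (by simp)]
    simp
    norm_num
  unfold K
  linarith

lemma K_decay (t : ℝ) : t ^ 2 * K t ≤ 4 := by
  by_cases ht : t = 0
  · rw [ht]; norm_num
  · rw [K_eq ht]; linarith [Real.neg_one_le_cos t]

lemma K_lower {t : ℝ} (ht : |t| ≤ 1) : 1 / 2 ≤ K t := by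
  have h : ∫ u in (0:ℝ)..1, (1 - u) * (1 / 2) ≤ ∫ u in (0:ℝ)..1, (1 - u) * Real.cos (u * t) := by
    apply intervalIntegral.integral_mono_on (by norm_num)
      ((by fun_prop : Continuous fun u : ℝ => (1 - u) * (1 / 2)).intervalIntegrable _ _)
      ((cont_aux t).intervalIntegrable _ _)
    intro u hu
    have h1 : 0 ≤ 1 - u := by linarith [hu.2]
    have h2 := Real.one_sub_sq_div_two_le_cos (x := u * t)
    have h3 : (u * t) ^ 2 ≤ 1 := by
      have : |u * t| ≤ 1 := by
        rw [abs_mul]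
        have : |u| ≤ 1 := by rw [abs_le]; constructor <;> linarith [hu.1, hu.2]
        nlinarith [abs_nonneg u, abs_nonneg t]
      nlinarith [abs_le.1 this, sq_abs (u * t)]
    apply mul_le_mul_of_nonneg_left _ h1
    linarith
  have h3 : ∫ u in (0:ℝ)..1, (1 - u) * (1 / 2) = 1 / 4 := by
    rw [intervalIntegral.integral_mul_const, intervalIntegral.integral_sub (by simp) (by simp)]
    simp
    norm_num
  unfold K
  linarith

lemma K_add_shift (t : ℝ) (ht : t ≠ 0) : 4 ≤ (|t| + π) ^ 2 * (K t + K (t - π)) := by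
  have hpi := Real.pi_pos
  by_cases h1 : t = π
  · subst h1
    rw [sub_self, K_zero]
    have h3 := K_nonneg π
    have h4 : (4:ℝ) ≤ (|π| + π) ^ 2 := by
      rw [abs_of_pos hpi]
      nlinarith [Real.two_le_pi]
    nlinarith [sq_nonneg (|π| + π)]
  · have h2 : t - π ≠ 0 := sub_ne_zero.2 h1
    have e1 := K_eq ht
    have e2 := K_eq h2
    rw [Real.cos_sub_pi] at e2
    have k1 := K_nonneg t
    have k2 := K_nonneg (t - π)
    have b1 : t ^ 2 ≤ (|t| + π) ^ 2 := by
      rw [← sq_abs t]
      nlinarith [abs_nonneg t]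
    have b2 : (t - π) ^ 2 ≤ (|t| + π) ^ 2 := by
      have : |t - π| ≤ |t| + π := by
        calc |t - π| ≤ |t| + |π| := abs_sub t π
          _ = |t| + π := by rw [abs_of_pos hpi]
      rw [← sq_abs (t - π)]
      nlinarith [abs_nonneg (t - π)]
    nlinarith [mul_le_mul_of_nonneg_right b1 k1, mul_le_mul_of_nonneg_right b2 k2]

/-- complex form of the kernel -/
lemma K_integral (t : ℝ) :
    ∫ u in (-1:ℝ)..1, (((1 - |u|) : ℝ) : ℂ) * Complex.exp (u * t * Complex.I) = (K t : ℂ) := by
  have hc : Continuous fun u : ℝ => (((1 - |u|) : ℝ) : ℂ) * Complex.exp (u * t * Complex.I) := by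
    fun_prop
  rw [← intervalIntegral.integral_add_adjacent_intervals (b := 0) (hc.intervalIntegrable _ _)
    (hc.intervalIntegrable _ _)]
  have h1 : ∫ u in (-1:ℝ)..0, (((1 - |u|) : ℝ) : ℂ) * Complex.exp (u * t * Complex.I)
      = ∫ u in (0:ℝ)..1, (((1 - |u|) : ℝ) : ℂ) * Complex.exp (-(u * t * Complex.I)) := by
    have := intervalIntegral.integral_comp_neg (a := (0:ℝ)) (b := 1)
      (fun u : ℝ => (((1 - |u|) : ℝ) : ℂ) * Complex.exp (u * t * Complex.I))
    rw [neg_zero] at this
    rw [← this]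
    congr 1
    ext u
    rw [abs_neg]
    push_cast
    congr 2
    ring
  rw [h1, ← intervalIntegral.integral_add
    ((by fun_prop : Continuous fun u : ℝ => (((1 - |u|) : ℝ) : ℂ) *
      Complex.exp (-(u * t * Complex.I))).intervalIntegrable _ _) (hc.intervalIntegrable _ _)]
  unfold K
  rw [← intervalIntegral.integral_const_mul, ← intervalIntegral.integral_ofReal]
  apply intervalIntegral.integral_congr
  intro u hu
  rw [Set.uIcc_of_le (by norm_num)] at hu
  simp only
  rw [abs_of_nonneg hu.1, ← mul_add, Complex.ofReal_mul, Complex.ofReal_mul, Complex.ofReal_cos,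
    Complex.cos]
  push_cast
  rw [neg_mul]
  ring

end H89.PNT
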