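import Pool.Agent.H89.PNT.Kernel
import Mathlib.Analysis.SpecialFunctions.Trigonometric.ArctanDeriv
import Mathlib.Analysis.SpecialFunctions.Log.Deriv
import Mathlib.Analysis.SpecialFunctions.Pow.Real
import Mathlib.Analysis.Calculus.MeanValue

namespace H89.PNT

open Real Finset

lemma K_le (t : ℝ) : K t ≤ 5 / (1 + t ^ 2) := by
  rw [le_div_iff₀ (by positivity)]
  nlinarith [K_decay t, K_le_one t]

lemma arctan_step {a b : ℝ} (hab : a ≤ b) (hb : b ≤ a + 1) :
    (b - a) / (3 * (1 + b ^ 2)) ≤ Real.arctan b - Real.arctan a := by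
  have h := Convex.mul_sub_le_image_sub_of_le_deriv (D := Set.Icc a b) (convex_Icc a b)
    (f := Real.arctan) Real.continuous_arctan.continuousOn
    (Real.differentiable_arctan.differentiableOn) (C := 1 / (3 * (1 + b ^ 2))) ?_ a
    (Set.left_mem_Icc.2 hab) b (Set.right_mem_Icc.2 hab) hab
  · calc (b - a) / (3 * (1 + b ^ 2)) = 1 / (3 * (1 + b ^ 2)) * (b - a) := by ring
      _ ≤ _ := h
  · intro x hx
    rw [interior_Icc] at hx
    rw [Real.deriv_arctan]
    simp only
    apply one_div_le_one_div_of_le (by positivity)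
    have h1 : |x| ≤ |b| + 1 := by
      rw [abs_le]
      constructor
      · linarith [hx.1, neg_abs_le b]
      · linarith [hx.2, le_abs_self b]
    have h2 : x ^ 2 ≤ (|b| + 1) ^ 2 := by
      rw [← sq_abs x]
      nlinarith [abs_nonneg x]
    nlinarith [sq_abs b, sq_nonneg (|b| - 1)]

lemma log_step {n : ℕ} (hn : 1 ≤ n) :
    1 / ((n : ℝ) + 1) ≤ Real.log (n + 1) - Real.log n ∧
      Real.log ((n : ℝ) + 1) - Real.log n ≤ 1 := by
  have hn0 : (0:ℝ) < n := by exact_mod_cast hn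
  have e : Real.log ((n:ℝ) + 1) - Real.log n = Real.log (((n:ℝ) + 1) / n) := by
    rw [Real.log_div (by positivity) (by positivity)]
  rw [e]
  constructor
  · have h1 := Real.one_sub_inv_le_log_of_pos (x := ((n:ℝ) + 1) / n) (by positivity)
    have h2 : 1 - (((n:ℝ) + 1) / n)⁻¹ = 1 / ((n : ℝ) + 1) := by
      field_simp
      ring
    linarith
  · have h1 := Real.log_le_sub_one_of_pos (x := ((n:ℝ) + 1) / n) (by positivity)
    have h2 : ((n:ℝ) + 1) / n - 1 = 1 / n := by
      field_simp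
      ring
    have h3 : 1 / (n:ℝ) ≤ 1 := by
      rw [div_le_one hn0]; exact_mod_cast hn
    linarith

theorem sone_aux (y : ℝ) (N : ℕ) (hN : 1 ≤ N) :
    ∑ n ∈ Finset.Icc 1 N, K (y - Real.log n) / n
      ≤ 1 + 15 * (Real.arctan (Real.log N - y) - Real.arctan (-y)) := by
  induction N, hN using Nat.le_induction with
  | base =>
    simp
    exact K_le_one y
  | succ n hn ih =>
    rw [Finset.sum_Icc_succ_top (by omega)]
    have h0 := log_step hn
    have h1 := arctan_step (a := Real.log n - y) (b := Real.log ((n:ℝ) + 1) - y)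
      (by
        have : 0 ≤ 1 / ((n : ℝ) + 1) := by positivity
        linarith [h0.1]) (by linarith [h0.2])
    have h2 : K (y - Real.log ((n:ℝ) + 1)) ≤ 5 / (1 + (Real.log ((n:ℝ) + 1) - y) ^ 2) := by
      have := K_le (y - Real.log ((n:ℝ) + 1))
      rw [show (y - Real.log ((n:ℝ) + 1)) ^ 2 = (Real.log ((n:ℝ) + 1) - y) ^ 2 by ring] at this
      exact this
    have h3 : K (y - Real.log ((n:ℝ) + 1)) / ((n:ℝ) + 1)
        ≤ 15 * (Real.arctan (Real.log ((n:ℝ) + 1) - y) - Real.arctan (Real.log n - y)) := by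
      have h4 : (1 / ((n : ℝ) + 1)) / (3 * (1 + (Real.log ((n:ℝ) + 1) - y) ^ 2))
          ≤ (Real.log ((n:ℝ) + 1) - y - (Real.log n - y)) /
            (3 * (1 + (Real.log ((n:ℝ) + 1) - y) ^ 2)) := by
        apply div_le_div_of_nonneg_right _ (by positivity)
        linarith [h0.1]
      have h5 : K (y - Real.log ((n:ℝ) + 1)) / ((n:ℝ) + 1)
          ≤ 15 * ((1 / ((n : ℝ) + 1)) / (3 * (1 + (Real.log ((n:ℝ) + 1) - y) ^ 2))) := by
        have e : 15 * ((1 / ((n : ℝ) + 1)) / (3 * (1 + (Real.log ((n:ℝ) + 1) - y) ^ 2)))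
            = (5 / (1 + (Real.log ((n:ℝ) + 1) - y) ^ 2)) / ((n:ℝ) + 1) := by
          field_simp
          ring
        rw [e]
        exact div_le_div_of_nonneg_right h2 (by positivity)
      linarith
    push_cast
    linarith

theorem sone_upper (y : ℝ) (N : ℕ) :
    ∑ n ∈ Finset.range N, K (y - Real.log n) / n ≤ 1 + 15 * π := by
  have hpi := Real.pi_pos
  rcases Nat.eq_zero_or_pos N with h | h
  · subst h
    simp
    positivity
  have h1 : ∑ n ∈ Finset.range N, K (y - Real.log n) / n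
      ≤ ∑ n ∈ Finset.Icc 1 N, K (y - Real.log n) / n := by
    rw [Finset.range_eq_Ico, Finset.sum_eq_sum_Ico_succ_bot h]
    simp only [Nat.cast_zero, div_zero, zero_add]
    apply Finset.sum_le_sum_of_subset_of_nonneg
    · intro i hi
      simp only [Finset.mem_Ico, Finset.mem_Icc] at hi ⊢
      omega
    · intro i _ _
      exact div_nonneg (K_nonneg _) (by positivity)
  have h2 := sone_aux y N h
  have h3 := Real.arctan_lt_pi_div_two (Real.log N - y)
  have h4 := Real.neg_pi_div_two_lt_arctan (-y)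
  linarith

/-- lower bound: the integers between `e^y` and `e^{y+1/l}` -/
theorem sone_lower {l : ℝ} (hl : 1 ≤ l) {y : ℝ} (hy : Real.log (4 * l) ≤ y) :
    1 / (8 * Real.exp 1 * l) ≤
      ∑ n ∈ Finset.Ioc ⌊Real.exp y⌋₊ ⌊Real.exp (y + 1 / l)⌋₊, K (l * (y - Real.log n)) / n := by
  have hl0 : 0 < l := by linarith
  have hx : 4 * l ≤ Real.exp y := by
    calc 4 * l = Real.exp (Real.log (4 * l)) := (Real.exp_log (by positivity)).symm
      _ ≤ Real.exp y := Real.exp_le_exp.2 hy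
  set x := Real.exp y with hxdef
  have hxp : 0 < x := Real.exp_pos y
  have hz : x * (1 + 1 / l) ≤ Real.exp (y + 1 / l) := by
    rw [Real.exp_add]
    apply mul_le_mul_of_nonneg_left _ hxp.le
    linarith [Real.add_one_le_exp (1 / l)]
  have hzu : Real.exp (y + 1 / l) ≤ x * Real.exp 1 := by
    rw [Real.exp_add]
    apply mul_le_mul_of_nonneg_left _ hxp.le
    apply Real.exp_le_exp.2
    rw [div_le_one hl0]; exact hl
  set z := Real.exp (y + 1 / l) with hzdef
  have hcard : x / (2 * l) ≤ ((Finset.Ioc ⌊x⌋₊ ⌊z⌋₊).card : ℝ) := by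
    rw [Nat.card_Ioc]
    have h1 : z - 1 < ⌊z⌋₊ := by linarith [Nat.lt_floor_add_one z]
    have h2 : (⌊x⌋₊ : ℝ) ≤ x := Nat.floor_le hxp.le
    have h3 : ((⌊z⌋₊ - ⌊x⌋₊ : ℕ) : ℝ) ≥ (⌊z⌋₊ : ℝ) - ⌊x⌋₊ := by
      have h4 : (⌊z⌋₊ : ℝ) ≤ ((⌊z⌋₊ - ⌊x⌋₊ : ℕ) : ℝ) + ⌊x⌋₊ := by
        exact_mod_cast (by omega : ⌊z⌋₊ ≤ (⌊z⌋₊ - ⌊x⌋₊) + ⌊x⌋₊)
      linarith
    have h5 : x * (1 / l) ≥ 4 := by
      rw [ge_iff_le, mul_one_div, le_div_iff₀ hl0]
      exact hx
    have h6 : x / (2 * l) = x * (1 / l) / 2 := by field_simp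
    rw [h6]
    nlinarith
  have hterm : ∀ n ∈ Finset.Ioc ⌊x⌋₊ ⌊z⌋₊, 1 / (2 * (x * Real.exp 1)) ≤ K (l * (y - Real.log n)) / n := by
    intro n hn
    rw [Finset.mem_Ioc] at hn
    have hn1 : x < n := (Nat.floor_lt hxp.le).1 hn.1
    have hn2 : (n:ℝ) ≤ z := (Nat.le_floor_iff (Real.exp_pos _).le).1 hn.2
    have hn0 : (0:ℝ) < n := hxp.trans hn1
    have hk : 1 / 2 ≤ K (l * (y - Real.log n)) := by
      apply K_lower
      have a1 : y ≤ Real.log n := by
        rw [Real.le_log_iff_exp_le hn0]; exact hn1.le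
      have a2 : Real.log n ≤ y + 1 / l := by
        rw [Real.log_le_iff_le_exp hn0]; exact hn2
      rw [abs_le]
      constructor
      · have : l * (y - Real.log n) ≥ l * (-(1 / l)) := mul_le_mul_of_nonneg_left (by linarith) hl0.le
        have e : l * (-(1 / l)) = -1 := by field_simp
        linarith
      · have : l * (y - Real.log n) ≤ 0 := mul_nonpos_of_nonneg_of_nonpos hl0.le (by linarith)
        linarith
    have h7 : (n:ℝ) ≤ x * Real.exp 1 := hn2.trans hzu
    calc 1 / (2 * (x * Real.exp 1)) = (1 / 2) / (x * Real.exp 1) := by field_simp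
      _ ≤ (1 / 2) / n := by
          apply div_le_div_of_nonneg_left (by norm_num) hn0 h7
      _ ≤ _ := div_le_div_of_nonneg_right hk hn0.le
  have hsum := Finset.card_nsmul_le_sum _ _ _ hterm
  rw [nsmul_eq_mul] at hsum
  refine le_trans ?_ hsum
  calc 1 / (8 * Real.exp 1 * l) ≤ 1 / (4 * Real.exp 1 * l) := by
        apply one_div_le_one_div_of_le (by positivity)
        nlinarith [Real.exp_pos 1, mul_pos (Real.exp_pos 1) hl0]
    _ = x / (2 * l) * (1 / (2 * (x * Real.exp 1))) := by field_simp; ring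
    _ ≤ _ := mul_le_mul_of_nonneg_right hcard (by positivity)

end H89.PNT
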