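import Pool.Agent.H89.PNT.Ident
import Pool.Agent.H89.PNT.Sone
import Mathlib.NumberTheory.LSeries.PrimesInAP
import Mathlib.NumberTheory.Harmonic.ZetaAsymp

namespace H89.PNT

open Real Filter Topology Set ArithmeticFunction.vonMangoldt

section

variable {q : ℕ} [NeZero q] (a : ZMod q)

/-- the regular part of the zeta function at one -/
noncomputable def Z : ℂ → ℂ :=
  Function.update (fun s => riemannZeta s - 1 / (s - 1)) 1 (Real.eulerMascheroniConstant : ℂ)

lemma Z_cont : Continuous Z := by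
  rw [continuous_iff_continuousAt]
  intro s
  by_cases hs : s = 1
  · subst hs
    unfold Z
    rw [continuousAt_update_same]
    exact tendsto_riemannZeta_sub_one_div
  · unfold Z
    rw [continuousAt_update_of_ne hs]
    refine (differentiableAt_riemannZeta hs).continuousAt.sub ?_
    refine continuousAt_const.div (by fun_prop) (sub_ne_zero.2 hs)

/-- density of the residue class -/
noncomputable def dens (q : ℕ) : ℝ := (q.totient : ℝ)⁻¹

lemma dens_pos : 0 < dens q := by
  unfold dens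
  have : 0 < q.totient := Nat.totient_pos.2 (NeZero.pos q)
  positivity

/-- the regular part -/
noncomputable def G (s : ℂ) : ℂ := LFunctionResidueClassAux a s - (dens q : ℂ) * Z s

lemma G_cont : ContinuousOn (G a) {s | 1 ≤ s.re} :=
  (continuousOn_LFunctionResidueClassAux a).sub (Z_cont.continuousOn.const_mul _ )

/-- the difference sequence -/
noncomputable def bseq (n : ℕ) : ℂ := ((residueClass a n : ℝ) : ℂ) - (dens q : ℂ)

omit [NeZero q] in
lemma summable_w {s : ℂ} (hs : 1 < s.re) :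
    LSeriesSummable (fun n => ((residueClass a n : ℝ) : ℂ)) s :=
  LSeriesSummable_of_abscissaOfAbsConv_lt_re
    (lt_of_le_of_lt (abscissaOfAbsConv_residueClass_le_one a) (by exact_mod_cast hs))

omit [NeZero q] in
lemma bseq_eq : bseq a = (fun n => ((residueClass a n : ℝ) : ℂ)) - (dens q : ℂ) • (1 : ℕ → ℂ) := by
  ext n
  simp [bseq]

omit [NeZero q] in
lemma summable_b {s : ℂ} (hs : 1 < s.re) : LSeriesSummable (bseq a) s := by
  rw [bseq_eq]
  exact (summable_w a hs).sub ((LSeriesSummable_one_iff.2 hs).smul _)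

lemma LSeries_b (ha : IsUnit a) {s : ℂ} (hs : 1 < s.re) : LSeries (bseq a) s = G a s := by
  rw [bseq_eq, LSeries_sub (summable_w a hs) ((LSeriesSummable_one_iff.2 hs).smul _),
    LSeries_smul, LSeries_one_eq_riemannZeta hs]
  have h := eqOn_LFunctionResidueClassAux ha hs
  simp only at h
  have hs1 : s ≠ 1 := by
    rintro rfl
    simp at hs
  unfold G Z dens
  rw [h, Function.update_of_ne hs1]
  push_cast
  ring

/-- weighted terms -/
noncomputable def A (δ l y : ℝ) (n : ℕ) : ℝ :=
  residueClass a n / (n : ℝ) ^ (1 + δ) * K (l * (y - Real.log n))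

noncomputable def B (δ l y : ℝ) (n : ℕ) : ℝ :=
  1 / (n : ℝ) ^ (1 + δ) * K (l * (y - Real.log n))

omit [NeZero q] in
lemma A_nonneg (δ l y : ℝ) (n : ℕ) : 0 ≤ A a δ l y n :=
  mul_nonneg (div_nonneg (residueClass_nonneg a n) (by positivity)) (K_nonneg _)

omit [NeZero q] in
lemma B_nonneg (δ l y : ℝ) (n : ℕ) : 0 ≤ B δ l y n :=
  mul_nonneg (by positivity) (K_nonneg _)

omit [NeZero q] in
lemma summable_A {δ : ℝ} (hδ : 0 < δ) (l y : ℝ) : Summable (A a δ l y) := by
  have h1 : Summable fun n : ℕ => residueClass a n / (n : ℝ) ^ (1 + δ) := by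
    have h := (summable_w a (s := ((1 + δ : ℝ) : ℂ)) (by simpa using hδ)).norm
    refine h.congr fun n => ?_
    rw [LSeries.norm_term_eq]
    by_cases hn : n = 0
    · subst hn; simp
    · rw [if_neg hn, Complex.norm_real, Real.norm_eq_abs,
        abs_of_nonneg (residueClass_nonneg a n), Complex.ofReal_re]
  refine Summable.of_nonneg_of_le (A_nonneg a δ l y) (fun n => ?_) h1
  unfold A
  exact mul_le_of_le_one_right (div_nonneg (residueClass_nonneg a n) (by positivity)) (K_le_one _)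

omit [NeZero q] in
lemma summable_B {δ : ℝ} (hδ : 0 < δ) (l y : ℝ) : Summable (B δ l y) := by
  have h1 : Summable fun n : ℕ => 1 / (n : ℝ) ^ (1 + δ) :=
    Real.summable_one_div_nat_rpow.2 (by linarith)
  refine Summable.of_nonneg_of_le (B_nonneg δ l y) (fun n => ?_) h1
  unfold B
  exact mul_le_of_le_one_right (by positivity) (K_le_one _)

theorem identR (ha : IsUnit a) {δ : ℝ} (hδ : 0 < δ) (l y : ℝ) :
    ∑' n, A a δ l y n = dens q * ∑' n, B δ l y n + (J (G a) l δ y).re := by
  have h := ident (summable_b a (s := 1 + (δ:ℂ)) (by simpa using hδ)) l y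
  have hJ : J (LSeries (bseq a)) l δ y = J (G a) l δ y := by
    unfold J
    apply intervalIntegral.integral_congr
    intro v _
    simp only
    rw [LSeries_b a ha (by simpa using hδ)]
  rw [hJ] at h
  have h2 := Complex.hasSum_re h
  have h3 : (fun n : ℕ => (LSeries.term (bseq a) (1 + δ) n * (K (l * (y - Real.log n)) : ℂ)).re)
      = fun n => A a δ l y n - dens q * B δ l y n := by
    ext n
    by_cases hn : n = 0
    · subst hn
      have : (0:ℝ) ^ (1 + δ) = 0 := Real.zero_rpow (by linarith)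
      simp [A, B, this]
    · rw [LSeries.term_of_ne_zero hn]
      have e : ((n:ℂ) ^ (1 + (δ:ℂ))) = (((n:ℝ) ^ (1 + δ) : ℝ) : ℂ) := by
        rw [Complex.ofReal_cpow (by positivity)]
        push_cast
        rfl
      rw [e]
      have e2 : bseq a n = ((residueClass a n - dens q : ℝ) : ℂ) := by
        unfold bseq; push_cast; rfl
      rw [e2, ← Complex.ofReal_div, ← Complex.ofReal_mul, Complex.ofReal_re]
      unfold A B
      ring
  rw [h3] at h2
  have h4 := ((summable_A a hδ l y).hasSum.sub ((summable_B hδ l y).hasSum.mul_left (dens q)))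
  have h5 := h2.unique h4
  linarith

omit [NeZero q] in
lemma B_upper {δ : ℝ} (hδ : 0 < δ) (y : ℝ) : ∑' n, B δ 1 y n ≤ 1 + 15 * π := by
  apply Real.tsum_le_of_sum_range_le (B_nonneg δ 1 y)
  intro N
  refine le_trans (Finset.sum_le_sum fun n _ => ?_) (sone_upper y N)
  unfold B
  rw [one_mul]
  by_cases hn : n = 0
  · subst hn
    have : (0:ℝ) ^ (1 + δ) = 0 := Real.zero_rpow (by linarith)
    simp [this]
  · have hn1 : (1:ℝ) ≤ n := by exact_mod_cast Nat.one_le_iff_ne_zero.2 hn
    have h1 : (n:ℝ) ≤ (n:ℝ) ^ (1 + δ) := by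
      calc (n:ℝ) = (n:ℝ) ^ (1:ℝ) := (Real.rpow_one _).symm
        _ ≤ _ := Real.rpow_le_rpow_of_exponent_le hn1 (by linarith)
    have h0 : (0:ℝ) < n := by linarith
    calc 1 / (n:ℝ) ^ (1 + δ) * K (y - Real.log n) ≤ 1 / n * K (y - Real.log n) := by
          apply mul_le_mul_of_nonneg_right _ (K_nonneg _)
          exact one_div_le_one_div_of_le h0 h1
      _ = _ := by ring

theorem A_upper (ha : IsUnit a) : ∃ M : ℝ, 0 < M ∧ ∀ δ ∈ Set.Ioc (0:ℝ) 1, ∀ y : ℝ,
    ∑' n, A a δ 1 y n ≤ M := by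
  obtain ⟨C, hC0, hC⟩ := J_bound (G_cont a) 1
  have hpi := Real.pi_pos
  have hd := dens_pos (q := q)
  refine ⟨dens q * (1 + 15 * π) + C, by positivity, ?_⟩
  intro δ hδ y
  rw [identR a ha hδ.1]
  have h1 := B_upper hδ.1 y
  have h2 := (Complex.re_le_norm _).trans (hC δ ⟨hδ.1.le, hδ.2⟩ y)
  have h3 := mul_le_mul_of_nonneg_left h1 hd.le
  linarith

/-- comparison of the kernels away from zero -/
lemma K_tail {η l t : ℝ} (hη : 0 < η) (hl : 0 < l) (ht : η ≤ |t|) :
    K (l * t) ≤ (1 + π / η) ^ 2 / l ^ 2 * (K t + K (t - π)) := by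
  have hpi := Real.pi_pos
  have ht0 : 0 < |t| := lt_of_lt_of_le hη ht
  have ht1 : t ≠ 0 := abs_pos.1 ht0
  have h1 := K_decay (l * t)
  have h2 := K_add_shift t ht1
  have hs : 0 ≤ K t + K (t - π) := add_nonneg (K_nonneg _) (K_nonneg _)
  have h3 : (|t| + π) ^ 2 ≤ (1 + π / η) ^ 2 * t ^ 2 := by
    rw [← sq_abs t, ← mul_pow]
    apply pow_le_pow_left₀ (by positivity)
    rw [add_mul, one_mul, div_mul_eq_mul_div]
    have : π ≤ π * |t| / η := by
      rw [le_div_iff₀ hη]
      exact mul_le_mul_of_nonneg_left ht hpi.le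
    linarith
  have h4 : (l * t) ^ 2 * K (l * t) ≤ ((1 + π / η) ^ 2 * t ^ 2) * (K t + K (t - π)) :=
    h1.trans (h2.trans (mul_le_mul_of_nonneg_right h3 hs))
  have h5 : 0 < t ^ 2 := by positivity
  have h6 : 0 < l ^ 2 := by positivity
  rw [div_mul_eq_mul_div, le_div_iff₀ h6]
  have h7 : t ^ 2 * (K (l * t) * l ^ 2) ≤ t ^ 2 * ((1 + π / η) ^ 2 * (K t + K (t - π))) := by
    calc t ^ 2 * (K (l * t) * l ^ 2) = (l * t) ^ 2 * K (l * t) := by ring
      _ ≤ _ := h4
      _ = _ := by ring
  exact le_of_mul_le_mul_left h7 h5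

end

end H89.PNT
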